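import Pool.Agent.H96.T1P.DFM

/-!
# T1P, row MAX: regularity above `s = 0`
-/

set_option autoImplicit false

namespace Pool.T1P

open Polynomial Matrix Pool.HYP Pool.TOW Pool.AVS IsDedekindDomain Pool.T1

namespace Max25

section Gen

variable {R : Type} [CommRing R]

theorem zer_iff' (I : Ideal R) (p : R[X]) : Zer I p ↔ p ∈ Ideal.map C I :=
  Ideal.mem_map_C_iff.symm

theorem md_mem {P : Ideal R} {p : R[X]} (h : md P p = 0) : Zer P p := by
  intro i
  have h1 := congrArg (fun q => q.coeff i) h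
  simp only [coeff_map, coeff_zero] at h1
  exact Ideal.Quotient.eq_zero_iff_mem.1 h1

theorem zer_mul {P : Ideal R} {a b : R[X]} (ha : Zer P a) (hb : Zer P b) :
    Zer (P ^ 2) (a * b) := by
  rw [zer_iff'] at ha hb ⊢
  rw [Ideal.map_pow, pow_two]
  exact Ideal.mul_mem_mul ha hb

/-- A maximal ideal of `R[X]` above the maximal ideal `P` and its square. -/
theorem sing_of_sq {𝔫 : Ideal R[X]} (hn : 𝔫.IsMaximal) {P : Ideal R} (hP : P.IsMaximal)
    (hPn : ∀ a : R, a ∈ P ↔ C a ∈ 𝔫) {f : R[X]} (hf : f ∈ 𝔫 ^ 2) : Sing P f := by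
  let _ := Ideal.Quotient.field P
  have hsur : Function.Surjective (Polynomial.mapRingHom (Ideal.Quotient.mk P)) :=
    Polynomial.map_surjective _ Ideal.Quotient.mk_surjective
  have hle : Ideal.map C P ≤ 𝔫 := by
    rw [Ideal.map_le_iff_le_comap]
    exact fun a ha => (hPn a).1 ha
  have hker : ∀ p : R[X], md P p = 0 → p ∈ 𝔫 := fun p hp =>
    hle ((zer_iff' P p).1 (md_mem hp))
  obtain ⟨N, hN⟩ : ∃ N : Ideal (R ⧸ P)[X],
      N = 𝔫.map (Polynomial.mapRingHom (Ideal.Quotient.mk P)) := ⟨_, rfl⟩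
  have hcm : ∀ p : R[X], md P p ∈ N → p ∈ 𝔫 := by
    intro p hp
    have h1 : p ∈ Ideal.comap (Polynomial.mapRingHom (Ideal.Quotient.mk P)) N := hp
    rw [hN, Ideal.comap_map_of_surjective _ hsur, Submodule.mem_sup] at h1
    obtain ⟨a, ha, b, hb, rfl⟩ := h1
    refine 𝔫.add_mem ha (hker b ?_)
    rw [Ideal.mem_comap, Ideal.mem_bot] at hb
    exact hb
  have hNmax : N.IsMaximal := by
    rcases Ideal.map_eq_top_or_isMaximal_of_surjective _ hsur hn with h1 | h1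
    · exfalso
      apply hn.ne_top
      rw [Ideal.eq_top_iff_one]
      apply hcm
      rw [hN, h1]
      exact Submodule.mem_top
    · rwa [hN]
  -- a generator
  have hNne : N ≠ ⊥ := by
    exact Ring.ne_bot_of_isMaximal_of_not_isField hNmax (Polynomial.not_isField _)
  obtain ⟨γ₁, hγ₁⟩ : ∃ γ₁ : (R ⧸ P)[X], N = Ideal.span {γ₁} :=
    ⟨Submodule.IsPrincipal.generator N, (Ideal.span_singleton_generator N).symm⟩
  have hγ₁0 : γ₁ ≠ 0 := by
    rintro rfl
    apply hNne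
    rw [hγ₁, Ideal.span_singleton_eq_bot]
  have hirr₁ : Irreducible γ₁ := by
    have h1 : Prime γ₁ := by
      rw [← Ideal.span_singleton_prime hγ₁0, ← hγ₁]
      exact hNmax.isPrime
    exact h1.irreducible
  obtain ⟨γ₀, hγ₀m, hγ₀a⟩ : ∃ γ₀ : (R ⧸ P)[X], γ₀.Monic ∧ Associated γ₀ γ₁ := by
    refine ⟨γ₁ * C γ₁.leadingCoeff⁻¹, monic_mul_leadingCoeff_inv hγ₁0, ?_⟩
    have hu : IsUnit (C γ₁.leadingCoeff⁻¹ : (R ⧸ P)[X]) :=
      (isUnit_iff_ne_zero.2 (inv_ne_zero (leadingCoeff_ne_zero.2 hγ₁0))).map C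
    exact (associated_mul_unit_left _ _ hu)
  have hN₀ : N = Ideal.span {γ₀} := by
    rw [hγ₁]
    exact (Ideal.span_singleton_eq_span_singleton.2 hγ₀a).symm
  have hirr₀ : Irreducible γ₀ := hγ₀a.symm.irreducible hirr₁
  obtain ⟨γ, hγ, -, hγm⟩ := Polynomial.lifts_and_natDegree_eq_and_monic
    (f := Ideal.Quotient.mk P) (p := γ₀) (by
      rw [Polynomial.mem_lifts]
      exact hsur γ₀) hγ₀m
  have hdec : ∀ p ∈ 𝔫, ∃ q r : R[X], Zer P r ∧ p = γ * q + r := by
    intro p hp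
    have h1 : md P p ∈ N := by
      rw [hN]
      exact Ideal.mem_map_of_mem _ hp
    rw [hN₀, Ideal.mem_span_singleton] at h1
    obtain ⟨q', hq'⟩ := h1
    obtain ⟨q, hq⟩ := hsur q'
    refine ⟨q, p - γ * q, md_mem ?_, by ring⟩
    have hq1 : md P q = q' := hq
    rw [md, Polynomial.map_sub, Polynomial.map_mul, hγ]
    change md P p - γ₀ * md P q = 0
    rw [hq1, hq', sub_self]
  have hall : ∀ p ∈ 𝔫 ^ 2, ∃ a b c : R[X], Zer P b ∧ Zer (P ^ 2) c ∧
      p = γ ^ 2 * a + γ * b + c := by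
    intro p hp
    rw [pow_two] at hp
    refine Submodule.mul_induction_on hp ?_ ?_
    · intro x hx y hy
      obtain ⟨q, r, hr, rfl⟩ := hdec x hx
      obtain ⟨q', r', hr', rfl⟩ := hdec y hy
      refine ⟨q * q', q * r' + q' * r, r * r', ?_, zer_mul hr hr', by
        show (γ * q + r) * (γ * q' + r') = _
        ring⟩
      rw [zer_iff'] at hr hr' ⊢
      exact Ideal.add_mem _ (Ideal.mul_mem_left _ _ hr') (Ideal.mul_mem_left _ _ hr)
    · rintro x y ⟨a, b, c, hb, hc, rfl⟩ ⟨a', b', c', hb', hc', rfl⟩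
      refine ⟨a + a', b + b', c + c', ?_, ?_, by ring⟩
      · rw [zer_iff'] at hb hb' ⊢
        exact Ideal.add_mem _ hb hb'
      · rw [zer_iff'] at hc hc' ⊢
        exact Ideal.add_mem _ hc hc'
  obtain ⟨a, b, c, hb, hc, h⟩ := hall f hf
  refine ⟨γ, a, b, c, hγm, ?_, hb, hc, h⟩
  rw [md, hγ]
  exact hirr₀

end Gen

section Var

variable {R : Type} [CommRing R] {m : ℕ}

theorem const_mem {𝔪 : Ideal (Am R m)[X]} (hX : ∀ k : Fin m, C (MvPolynomial.X k) ∈ 𝔪)
    (a : Am R m) : C (a - MvPolynomial.C (MvPolynomial.constantCoeff a)) ∈ 𝔪 := by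
  induction a using MvPolynomial.induction_on with
  | C r =>
    rw [MvPolynomial.constantCoeff_C, sub_self, C_0]
    exact 𝔪.zero_mem
  | add p q hp hq =>
    have h1 : p + q - MvPolynomial.C (MvPolynomial.constantCoeff (p + q)) =
        (p - MvPolynomial.C (MvPolynomial.constantCoeff p)) +
          (q - MvPolynomial.C (MvPolynomial.constantCoeff q)) := by
      rw [map_add, map_add]
      ring
    rw [h1, C_add]
    exact 𝔪.add_mem hp hq
  | mul_X p i _ =>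
    have h1 : p * MvPolynomial.X i -
        MvPolynomial.C (MvPolynomial.constantCoeff (p * MvPolynomial.X i)) =
          p * MvPolynomial.X i := by
      rw [map_mul, MvPolynomial.constantCoeff_X, mul_zero, map_zero, sub_zero]
    rw [h1, C_mul]
    exact 𝔪.mul_mem_left _ (hX i)

theorem ker_mem {𝔪 : Ideal (Am R m)[X]} (hX : ∀ k : Fin m, C (MvPolynomial.X k) ∈ 𝔪)
    (p : (Am R m)[X]) (hp : at0 p = 0) : p ∈ 𝔪 := by
  have h1 : ∀ n : ℕ, C (p.coeff n) ∈ 𝔪 := by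
    intro n
    have h2 : MvPolynomial.constantCoeff (p.coeff n) = 0 := by
      have h3 := congrArg (fun q => q.coeff n) hp
      simpa only [coeff_map, coeff_zero] using h3
    have h4 := const_mem hX (p.coeff n)
    rwa [h2, map_zero, sub_zero] at h4
  rw [p.as_sum_range_C_mul_X_pow]
  exact 𝔪.sum_mem fun n _ => 𝔪.mul_mem_right _ (h1 n)

end Var

end Max25

open Max25 in
/-- **MAX.** -/
theorem maxm : MAXStmt := by
  intro R _ _ _ hR m k A f _ hS hF 𝔪 h𝔪 hX hf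
  set ψ : (Am R m)[X] →+* R[X] := Polynomial.mapRingHom MvPolynomial.constantCoeff with hψ
  have hψs : Function.Surjective ψ := Polynomial.map_surjective _ fun r =>
    ⟨MvPolynomial.C r, MvPolynomial.constantCoeff_C _ r⟩
  obtain ⟨𝔫, h𝔫⟩ : ∃ 𝔫 : Ideal R[X], 𝔫 = 𝔪.map ψ := ⟨_, rfl⟩
  have hcm : ∀ p : (Am R m)[X], ψ p ∈ 𝔫 → p ∈ 𝔪 := by
    intro p hp
    have h1 : p ∈ Ideal.comap ψ 𝔫 := hp
    rw [h𝔫, Ideal.comap_map_of_surjective _ hψs, Submodule.mem_sup] at h1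
    obtain ⟨a, ha, b, hb, rfl⟩ := h1
    refine 𝔪.add_mem ha (ker_mem hX b ?_)
    rw [Ideal.mem_comap, Ideal.mem_bot] at hb
    exact hb
  have hmc : ∀ p ∈ 𝔪, ψ p ∈ 𝔫 := fun p hp => by
    rw [h𝔫]
    exact Ideal.mem_map_of_mem _ hp
  have hnmax : 𝔫.IsMaximal := by
    rcases Ideal.map_eq_top_or_isMaximal_of_surjective _ hψs h𝔪 with h1 | h1
    · exfalso
      apply h𝔪.ne_top
      rw [Ideal.eq_top_iff_one]
      apply hcm
      rw [h𝔫, h1]
      exact Submodule.mem_top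
    · rwa [h𝔫]
  obtain ⟨P, hPd⟩ : ∃ P : Ideal R, P = Ideal.comap C 𝔫 := ⟨_, rfl⟩
  have hPmax : P.IsMaximal := by
    rw [hPd]
    exact Polynomial.isMaximal_comap_C_of_isJacobsonRing 𝔫
  have hPn : ∀ a : R, a ∈ P ↔ C a ∈ 𝔫 := fun a => by rw [hPd]; exact Iff.rfl
  have hPne : P ≠ ⊥ := Ring.ne_bot_of_isMaximal_of_not_isField hPmax hR
  set v : HeightOneSpectrum R := ⟨P, hPmax.isPrime, hPne⟩ with hv
  have hle : ∀ p : R[X], Zer P p → p ∈ 𝔫 := by
    intro p hp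
    rw [zer_iff'] at hp
    have : Ideal.map C P ≤ 𝔫 := by
      rw [Ideal.map_le_iff_le_comap]
      exact fun a ha => (hPn a).1 ha
    exact this hp
  have hf0 : at0 f ∈ 𝔫 ^ 2 := by
    have h1 : ψ f ∈ (𝔪 ^ 2).map ψ := Ideal.mem_map_of_mem _ hf
    rw [Ideal.map_pow, ← h𝔫] at h1
    exact h1
  obtain ⟨hvA, c, hc⟩ := hS v (sing_of_sq hnmax hPmax hPn hf0)
  -- `X - c` is in `𝔫`
  have hXc : X - C c ∈ 𝔫 := by
    have h1 : at0 f - (X - C c) ^ (at0 f).natDegree ∈ 𝔫 := hle _ hc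
    have h2 : at0 f ∈ 𝔫 := Ideal.pow_le_self two_ne_zero hf0
    have h3 : (X - C c) ^ (at0 f).natDegree ∈ 𝔫 := by
      have := 𝔫.sub_mem h2 h1
      rwa [sub_sub_cancel] at this
    exact hnmax.isPrime.mem_of_pow_mem _ h3
  have hev : ∀ p ∈ 𝔫, p.eval c ∈ P := by
    intro p hp
    rw [hPn]
    obtain ⟨q, hq⟩ := X_sub_C_dvd_sub_C_eval (a := c) (p := p)
    have h1 : C (p.eval c) = p - (X - C c) * q := by rw [← hq]; ring
    rw [h1]
    exact 𝔫.sub_mem hp (𝔫.mul_mem_right _ hXc)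
  -- the derivation
  set Δ : Derivation ℤ (Am R m) (Am R m) :=
    (MvPolynomial.pderiv k : Derivation R (Am R m) (Am R m)).restrictScalars ℤ with hΔ
  obtain ⟨d1, d2, d3, -⟩ := ddk (Am R m) Δ
  have hΛ : ∀ p ∈ 𝔪 ^ 2, (ψ (dD Δ p)).eval c ∈ P := by
    intro p hp
    rw [pow_two] at hp
    refine Submodule.mul_induction_on hp ?_ ?_
    · intro x hx y hy
      show (ψ (dD Δ (x * y))).eval c ∈ P
      rw [d3, map_add, map_mul, map_mul, eval_add, eval_mul, eval_mul]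
      exact P.add_mem (P.mul_mem_left _ (hev _ (hmc y hy)))
        (P.mul_mem_right _ (hev _ (hmc x hx)))
    · intro x y hx hy
      rw [d2, map_add, eval_add]
      exact P.add_mem hx hy
  have h1 := hΛ f hf
  have h2 : Zer P (ψ (dD Δ f) - 1) := by
    intro n
    have h3 := hF v hvA n
    have h4 : (ψ (dD Δ f) - 1).coeff n = fo k (f.coeff n) - (if n = 0 then 1 else 0) := by
      rw [coeff_sub, coeff_one]
      congr 1
      show (at0 (dD Δ f)).coeff n = _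
      rw [coeff_map, d1]
      rfl
    rw [h4]
    exact h3
  have h5 : (ψ (dD Δ f) - 1).eval c ∈ P := hev _ (hle _ h2)
  rw [eval_sub, eval_one] at h5
  apply hPmax.ne_top
  rw [Ideal.eq_top_iff_one]
  have h6 := P.sub_mem h1 h5
  rwa [sub_sub_cancel] at h6

end Pool.T1P
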